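import Pool.Agent.H314.DN.FMain

set_option autoImplicit false

open DbarNeumann

namespace Pool.Agent.Results.MP_2ab45c_an.NoGroundState

/-- There is a bounded (connected, nonempty, open) pseudoconvex - even convex - domain `Ω ⊆ ℂ³`
with `C^∞` boundary such that the infimum `lam` of the spectrum of the `∂̄`-Neumann Laplacian `□₁`
on `(0,1)`-forms belongs to the spectrum, but is not an eigenvalue of `□₁`. -/
theorem result :
    ∃ Ω : Set E3, Ω.Nonempty ∧ IsOpen Ω ∧ IsConnected Ω ∧ Bornology.IsBounded Ω ∧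
      SmoothBoundary Ω ∧ Pseudoconvex Ω ∧ Convex ℝ Ω ∧
      ∃ lam : ℝ, (lam : ℂ) ∈ spec Ω ∧ (∀ μ ∈ spec Ω, μ.im = 0 ∧ lam ≤ μ.re) ∧
        ¬ ∃ u : Form Ω, u ≠ 0 ∧ Box Ω u ((lam : ℂ) • u) :=
  DbarNeumann.main

end Pool.Agent.Results.MP_2ab45c_an.NoGroundState
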